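import Pool.Agent.L0h90.TT.Cnt2

/-!
# The sum of the powers of the local count over the points with given small part

The main result is `cnt : S_CNT`.
-/

set_option autoImplicit false

namespace Pool.Agent.L0h90.TT

open Finset Pool.Agent.W262.RK Pool.Agent.L0h5.TF Pool.Agent.L0h94.FT Pool.Agent.L0h5.TT
open Pool.Agent.W307.RT (S1 S2 Gd fv)

/-- the data of a point -/
def Ptc {k : ℕ} (α β : Fin 3 → ℤ) (z y : ℕ) (σ : Fin 3 → ℕ) (v u g : ℕ) (D : Fin k → ℕ × ℕ)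
    (x t : ℕ) : Prop :=
  x.Coprime t ∧ F3 α β x t ≠ 0 ∧
      tc α β z y (g, x, t) = σ ∧ S2 z y (fR α β (g, x, t)) () = v ∧
      (u : ℤ) ∣ fR α β (g, x, t) () ∧
      ∀ p ∈ (∏ j, σ j).primeFactors, ∀ i, Lw α β g x t p (bv p D i).1 (bv p D i).2 (bs p D i).1
        (bs p D i).2

lemma sum_gtc {k : ℕ} {α β : Fin 3 → ℤ} {z : ℕ} (hb : Bg α β z) {C C1 : ℝ} {K y0 : ℕ}
    (hC : 0 ≤ C) (hC1 : 0 ≤ C1) (hsv : SvD z C K y0) (hav : AvC z C1)
    {X y Y v u g : ℕ} {σ : Fin 3 → ℕ} (hy : y0 ≤ y) (hzy : z < y) (hyX : y ^ K ≤ X)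
    (hσ : σ ∈ Tup (Fin 3) z y) (hv : v ∈ (PP z y).divisors) (hu : u ∈ (PP y Y).divisors)
    (hsvu : ((∏ j, σ j) * v * u) ^ 8 ≤ X) (hg : g ≠ 0)
    (D : Fin k → ℕ × ℕ) (T : Finset (ℕ × ℕ))
    (hT : ∀ q ∈ T, q.1 ∈ Icc 1 X ∧ q.2 ∈ Icc 1 X ∧ Ptc α β z y σ v u g D q.1 q.2) :
    (T.card : ℝ) ≤ C * C1 * X ^ 2 *
      ((∏ p ∈ (∏ j, σ j).primeFactors, lamc k (tp σ p) (bv p D) (bs p D)) *
        gw 1 3 (∏ j, σ j)) *
      (3 ^ v.primeFactors.card * (gw 1 3 v / v)) * (3 ^ u.primeFactors.card / u) *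
      2 ^ g.primeFactors.card / (Real.log y) ^ 3 := by
  classical
  have hz8 : 8 ≤ z := by
    have := hb.1
    simpa using this
  have hs := tup_prod hσ
  have hlog : 0 ≤ (Real.log y) ^ 3 := pow_nonneg (Real.log_natCast_nonneg y) _
  have hgs := gw3_nonneg hz8 hs
  have hgv := gw3_nonneg hz8 hv
  have hl0 : 0 ≤ ∏ p ∈ (∏ j, σ j).primeFactors, lamc k (tp σ p) (bv p D) (bs p D) :=
    prod_nonneg fun p _ => lamc_nonneg _ _ _ _
  rcases T.eq_empty_or_nonempty with hE | ⟨q0, hq0⟩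
  · rw [hE, card_empty, Nat.cast_zero]
    positivity
  obtain ⟨-, -, a1, a2, a3, a4, a5, a6⟩ := hT q0 hq0
  have hcop : (∏ j, σ j).Coprime v := by
    apply Nat.coprime_of_dvd
    intro p hp hps hpv
    have h1 := dvd_tp hp hps
    rw [← a3, dvd_tc hp] at h1
    rw [← a4, dvd_S2R hp a2] at hpv
    exact h1.2.2.2 hpv.2.2
  have hsg : ∀ p ∈ (∏ j, σ j).primeFactors, ¬ p ∣ g := by
    intro p hp
    have hpp := Nat.prime_of_mem_primeFactors hp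
    have h1 := dvd_tp hpp (Nat.dvd_of_mem_primeFactors hp)
    rw [← a3, dvd_tc hpp] at h1
    exact h1.2.1
  have hsX : (∏ j, σ j) ^ 4 ≤ X := by
    refine le_trans ?_ hsvu
    have hs1 : 1 ≤ ∏ j, σ j := dv_pos hs
    have hv1 : 1 ≤ v := dv_pos hv
    have hu1 : 1 ≤ u := dv_pos hu
    have h1 : (∏ j, σ j) ≤ (∏ j, σ j) * v * u := by
      calc (∏ j, σ j) = (∏ j, σ j) * 1 * 1 := by ring
        _ ≤ (∏ j, σ j) * v * u := Nat.mul_le_mul (Nat.mul_le_mul_left _ hv1) hu1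
    calc (∏ j, σ j) ^ 4 ≤ (∏ j, σ j) ^ 8 := Nat.pow_le_pow_right hs1 (by norm_num)
      _ ≤ ((∏ j, σ j) * v * u) ^ 8 := Nat.pow_le_pow_left h1 8
  have hmap : ∀ q ∈ T, q.2 ∈ (Icc 1 X).filter (fun t => t.Coprime (∏ j, σ j)) := by
    intro q hq
    obtain ⟨b0, b1, c1, c2, c3, c4, c5, c6⟩ := hT q hq
    rw [mem_filter]
    refine ⟨b1, Nat.coprime_of_dvd fun p hp hpt hps => ?_⟩
    have hzp := (dv_prime hs hp hps).1
    have h1 := dvd_tp hp hps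
    rw [← c3, dvd_tc hp] at h1
    exact ndt hb hp hzp c1 h1.2.2.1 (Int.natCast_dvd_natCast.2 hpt)
  have hfib : ∀ t ∈ (Icc 1 X).filter (fun t => t.Coprime (∏ j, σ j)),
      ((T.filter (fun q => q.2 = t)).card : ℝ) ≤
      C * X * ((∏ p ∈ (∏ j, σ j).primeFactors, phc α β g D (tp σ p) p (t % p)) *
        gw 1 3 (∏ j, σ j)) *
      (3 ^ v.primeFactors.card * (gw 1 3 v / v)) * (3 ^ u.primeFactors.card / u) *
      (2 ^ g.primeFactors.card * hf 3 z t) / (Real.log y) ^ 3 := by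
    intro t ht
    have ht1 := (mem_Icc.1 (mem_filter.1 ht).1).1
    have h1 : (T.filter (fun q => q.2 = t)).card =
        ((T.filter (fun q => q.2 = t)).image Prod.fst).card := by
      rw [card_image_of_injOn]
      intro q hq q' hq' hqq
      have h2 := (mem_filter.1 (mem_coe.1 hq)).2
      have h3 := (mem_filter.1 (mem_coe.1 hq')).2
      exact Prod.ext hqq (h2.trans h3.symm)
    rw [h1]
    refine cntC hb hC hsv hy hzy hyX hσ hv hu hsvu hcop hg (by omega) D _ ?_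
    intro x hx
    obtain ⟨q, hq, rfl⟩ := mem_image.1 hx
    rw [mem_filter] at hq
    obtain ⟨hq1, rfl⟩ := hq
    obtain ⟨b0, b1, c1, c2, c3, c4, c5, c6⟩ := hT q hq1
    exact ⟨b0, c1, c2, c3, c4, c5, c6⟩
  have h1 : (T.card : ℝ) = ∑ t ∈ (Icc 1 X).filter (fun t => t.Coprime (∏ j, σ j)),
      ((T.filter (fun q => q.2 = t)).card : ℝ) := by
    rw [card_eq_sum_card_fiberwise hmap]
    push_cast
    rfl
  rw [h1]
  refine (sum_le_sum hfib).trans ?_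
  have h2 := hav X (∏ j, σ j) (fun p r => phc α β g D (tp σ p) p r) (dv_squarefree hs) hsX
    (fun p r => phc_nonneg _ _ _ _ _ _ _)
  have h3 : ∏ p ∈ (∏ j, σ j).primeFactors,
      ((1 / (p : ℝ)) * ∑ r ∈ (range p).filter (fun r => r ≠ 0), phc α β g D (tp σ p) p r) ≤
      ∏ p ∈ (∏ j, σ j).primeFactors, lamc k (tp σ p) (bv p D) (bs p D) := by
    refine prod_le_prod (fun p _ => mul_nonneg (by positivity)
      (sum_nonneg fun r _ => phc_nonneg _ _ _ _ _ _ _)) fun p hp => ?_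
    have hpp := Nat.prime_of_mem_primeFactors hp
    exact phc_avg hb D (tp σ p) hpp
      (dv_prime hs hpp (Nat.dvd_of_mem_primeFactors hp)).1 (hsg p hp)
  have h4 := h2.trans (mul_le_mul_of_nonneg_left h3 (by positivity : (0 : ℝ) ≤ C1 * X))
  have h5 : 0 ≤ C * X * gw 1 3 (∏ j, σ j) * (3 ^ v.primeFactors.card * (gw 1 3 v / v)) *
      (3 ^ u.primeFactors.card / u) * 2 ^ g.primeFactors.card / (Real.log y) ^ 3 := by positivity
  have h6 := mul_le_mul_of_nonneg_left h4 h5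
  refine le_trans (le_of_eq ?_) (h6.trans (le_of_eq ?_))
  · rw [mul_sum]
    refine sum_congr rfl fun t _ => ?_
    ring
  · ring

open Classical in
lemma sum_Dc {k : ℕ} {α β : Fin 3 → ℤ} {z : ℕ} (hb : Bg α β z) {C C1 C2 b0 : ℝ} {K y0 : ℕ}
    (hC : 0 ≤ C) (hC1 : 0 ≤ C1) (hb0 : 1 ≤ b0) (hsv : SvD z C K y0) (hav : AvC z C1)
    (hC2 : ∀ X : ℕ, ∑ g ∈ Icc 1 X, (b0 * 2) ^ g.primeFactors.card / (g : ℝ) ^ 2 ≤ C2)
    {X y Y v u : ℕ} {σ : Fin 3 → ℕ} (hy : y0 ≤ y) (hzy : z < y) (hyX : y ^ K ≤ X)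
    (hσ : σ ∈ Tup (Fin 3) z y) (hv : v ∈ (PP z y).divisors) (hu : u ∈ (PP y Y).divisors)
    (hsvu : ((∏ j, σ j) * v * u) ^ 8 ≤ X)
    (D : Fin k → ℕ × ℕ) (T : Finset (ℕ × ℕ × ℕ))
    (hT : ∀ ω ∈ T, ω ∈ TX α β X ∧ Ptc α β z y σ v u ω.1 D ω.2.1 ω.2.2) :
    ∑ ω ∈ T, b0 ^ ω.1.primeFactors.card ≤ C * C1 * C2 * X ^ 4 *
      ((∏ p ∈ (∏ j, σ j).primeFactors, lamc k (tp σ p) (bv p D) (bs p D)) *
        gw 1 3 (∏ j, σ j)) *
      (3 ^ v.primeFactors.card * (gw 1 3 v / v)) * (3 ^ u.primeFactors.card / u) /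
      (Real.log y) ^ 3 := by
  have hz8 : 8 ≤ z := by
    have := hb.1
    simpa using this
  have hs := tup_prod hσ
  have hlog : 0 ≤ (Real.log y) ^ 3 := pow_nonneg (Real.log_natCast_nonneg y) _
  have hgs := gw3_nonneg hz8 hs
  have hgv := gw3_nonneg hz8 hv
  have hb00 : 0 ≤ b0 := by linarith
  have hl0 : 0 ≤ ∏ p ∈ (∏ j, σ j).primeFactors, lamc k (tp σ p) (bv p D) (bs p D) :=
    prod_nonneg fun p _ => lamc_nonneg _ _ _ _
  have hmap : ∀ ω ∈ T, ω.1 ∈ Icc 1 X := by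
    rintro ⟨g, x, t⟩ hω
    rw [mem_Icc]
    exact (mem_TX.1 (hT _ hω).1).1
  obtain ⟨W, hW⟩ : ∃ W : ℝ, W = C * C1 * ((∏ p ∈ (∏ j, σ j).primeFactors,
      lamc k (tp σ p) (bv p D) (bs p D)) * gw 1 3 (∏ j, σ j)) *
      (3 ^ v.primeFactors.card * (gw 1 3 v / v)) * (3 ^ u.primeFactors.card / u) /
      (Real.log y) ^ 3 := ⟨_, rfl⟩
  have hW0 : 0 ≤ W := by rw [hW]; positivity
  rw [← sum_fiberwise_of_maps_to hmap]
  have h1 : ∀ g ∈ Icc 1 X, ∑ ω ∈ T.filter (fun ω => ω.1 = g), b0 ^ ω.1.primeFactors.card ≤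
      W * X ^ 4 * ((b0 * 2) ^ g.primeFactors.card / (g : ℝ) ^ 2) := by
    intro g hg
    rw [mem_Icc] at hg
    have hg0 : (0 : ℝ) < g := by exact_mod_cast hg.1
    have h2 : ∑ ω ∈ T.filter (fun ω => ω.1 = g), b0 ^ ω.1.primeFactors.card =
        ((T.filter (fun ω => ω.1 = g)).card : ℝ) * b0 ^ g.primeFactors.card := by
      rw [← nsmul_eq_mul, ← sum_const]
      refine sum_congr rfl fun ω hω => ?_
      rw [(mem_filter.1 hω).2]
    have h3 : (T.filter (fun ω => ω.1 = g)).card =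
        ((T.filter (fun ω => ω.1 = g)).image Prod.snd).card := by
      rw [card_image_of_injOn]
      intro ω hω ω' hω' h
      have h2 := (mem_filter.1 (mem_coe.1 hω)).2
      have h3 := (mem_filter.1 (mem_coe.1 hω')).2
      exact Prod.ext (h2.trans h3.symm) h
    have hXg : X ≤ X ^ 2 / g := by
      rw [Nat.le_div_iff_mul_le (by omega), sq]
      exact Nat.mul_le_mul_left _ hg.2
    have h4 := sum_gtc hb hC hC1 hsv hav (X := X ^ 2 / g) hy hzy (hyX.trans hXg) hσ hv hu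
      (hsvu.trans hXg) (by omega : g ≠ 0) D ((T.filter (fun ω => ω.1 = g)).image Prod.snd) (by
        intro q hq
        obtain ⟨⟨g', x, t⟩, hω, rfl⟩ := mem_image.1 hq
        rw [mem_filter] at hω
        obtain ⟨hω1, hω2⟩ := hω
        simp only at hω2
        subst hω2
        obtain ⟨h5, h6⟩ := hT _ hω1
        obtain ⟨h7, h8, h9, -, -⟩ := mem_TX.1 h5
        exact ⟨mem_Icc.2 h8, mem_Icc.2 h9, h6⟩)
    rw [← h3] at h4
    rw [h2]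
    have h5 : ((X ^ 2 / g : ℕ) : ℝ) ≤ (X : ℝ) ^ 2 / g := by
      have := @Nat.cast_div_le ℝ _ _ _ (X ^ 2) g
      push_cast at this
      exact this
    have h6 : (((X ^ 2 / g : ℕ) : ℝ)) ^ 2 ≤ (X : ℝ) ^ 4 / (g : ℝ) ^ 2 := by
      refine (pow_le_pow_left₀ (Nat.cast_nonneg _) h5 2).trans (le_of_eq ?_)
      rw [div_pow, ← pow_mul]
    have h7 := mul_le_mul_of_nonneg_right h4 (by positivity : (0 : ℝ) ≤ b0 ^ g.primeFactors.card)
    have h8 : (b0 * 2) ^ g.primeFactors.card =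
        b0 ^ g.primeFactors.card * 2 ^ g.primeFactors.card := mul_pow _ _ _
    have h9 : 0 ≤ W * (b0 ^ g.primeFactors.card * 2 ^ g.primeFactors.card) := by positivity
    have h10 := mul_le_mul_of_nonneg_left h6 h9
    refine h7.trans (le_trans (le_of_eq ?_) (h10.trans (le_of_eq ?_)))
    · rw [hW]; ring
    · rw [h8]; ring
  refine (sum_le_sum h1).trans ?_
  rw [← mul_sum]
  have h2 := mul_le_mul_of_nonneg_left (hC2 X) (by positivity : 0 ≤ W * (X : ℝ) ^ 4)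
  refine h2.trans (le_of_eq ?_)
  rw [hW]
  ring

open Classical in
lemma sumNLc {k : ℕ} {α β : Fin 3 → ℤ} {z : ℕ} (hb : Bg α β z) {C C1 C2 b0 : ℝ} {K y0 : ℕ}
    (hC : 0 ≤ C) (hC1 : 0 ≤ C1) (hb0 : 1 ≤ b0) (hsv : SvD z C K y0) (hav : AvC z C1)
    (hC2 : ∀ X : ℕ, ∑ g ∈ Icc 1 X, (b0 * 2) ^ g.primeFactors.card / (g : ℝ) ^ 2 ≤ C2)
    {X y Y v u : ℕ} {σ : Fin 3 → ℕ} (hy : y0 ≤ y) (hzy : z < y) (hyX : y ^ K ≤ X)
    (hσ : σ ∈ Tup (Fin 3) z y) (hv : v ∈ (PP z y).divisors) (hu : u ∈ (PP y Y).divisors)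
    (hsvu : ((∏ j, σ j) * v * u) ^ 8 ≤ X)
    (T : Finset (ℕ × ℕ × ℕ))
    (hT : ∀ ω ∈ T, ω ∈ TX α β X ∧ tc α β z y ω = σ ∧ S2 z y (fR α β ω) () = v ∧
      (u : ℤ) ∣ fR α β ω ()) :
    ∑ ω ∈ T, b0 ^ ω.1.primeFactors.card *
      (NL (∏ j, σ j) (Lw α β ω.1 ω.2.1 ω.2.2) : ℝ) ^ k ≤
      C * C1 * C2 * X ^ 4 * (G3 k σ * gw 1 3 (∏ j, σ j)) *
      (3 ^ v.primeFactors.card * (gw 1 3 v / v)) * (3 ^ u.primeFactors.card / u) /
      (Real.log y) ^ 3 := by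
  set Q : (ℕ × ℕ × ℕ) → (Fin k → ℕ × ℕ) → Prop := fun ω D =>
    ∀ p ∈ (∏ j, σ j).primeFactors, ∀ i,
    Lw α β ω.1 ω.2.1 ω.2.2 p (bv p D i).1 (bv p D i).2 (bs p D i).1 (bs p D i).2 with hQ
  have h1 : ∀ ω ∈ T, b0 ^ ω.1.primeFactors.card *
      (NL (∏ j, σ j) (Lw α β ω.1 ω.2.1 ω.2.2) : ℝ) ^ k =
      ∑ D ∈ Dv k (∏ j, σ j), if Q ω D then b0 ^ ω.1.primeFactors.card else 0 := by
    intro ω _
    rw [NL_pow, mul_sum]
    refine sum_congr rfl fun D _ => ?_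
    unfold iL
    have h2 : ∀ p ∈ (∏ j, σ j).primeFactors, ∏ i, (if Lw α β ω.1 ω.2.1 ω.2.2 p (bv p D i).1
        (bv p D i).2 (bs p D i).1 (bs p D i).2 then (1 : ℝ) else 0) =
        if ∀ i, Lw α β ω.1 ω.2.1 ω.2.2 p (bv p D i).1 (bv p D i).2 (bs p D i).1 (bs p D i).2 then
          (1 : ℝ) else 0 := by
      intro p _
      rw [prod_boole]
      simp only [mem_univ, true_implies]
    rw [prod_congr rfl h2, prod_boole, mul_ite, mul_one, mul_zero]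
  rw [sum_congr rfl h1, sum_comm]
  have h2 : ∀ D ∈ Dv k (∏ j, σ j),
      ∑ ω ∈ T, (if Q ω D then b0 ^ ω.1.primeFactors.card else 0) ≤
      C * C1 * C2 * X ^ 4 *
      ((∏ p ∈ (∏ j, σ j).primeFactors, lamc k (tp σ p) (bv p D) (bs p D)) *
        gw 1 3 (∏ j, σ j)) *
      (3 ^ v.primeFactors.card * (gw 1 3 v / v)) * (3 ^ u.primeFactors.card / u) /
      (Real.log y) ^ 3 := by
    intro D _
    rw [← sum_filter]
    refine sum_Dc hb hC hC1 hb0 hsv hav hC2 hy hzy hyX hσ hv hu hsvu D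
      (T.filter fun ω => Q ω D) ?_
    rintro ⟨g, x, t⟩ hω
    rw [mem_filter] at hω
    obtain ⟨h3, h4, h5, h6⟩ := hT _ hω.1
    obtain ⟨-, -, -, h7, h8⟩ := mem_TX.1 h3
    exact ⟨h3, h7, h8, h4, h5, h6, hω.2⟩
  refine (sum_le_sum h2).trans (le_of_eq ?_)
  unfold G3
  rw [Gs_def, ← sum_div]
  congr 1
  rw [← sum_mul, ← sum_mul]
  congr 1
  congr 1
  rw [← mul_sum, ← sum_mul]

/-- **I2** -/
theorem cnt : S_CNT := by
  classical
  intro z k b0 hz hb0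
  obtain ⟨C, K, y0, hC0, hK1, hsv⟩ := svD z hz
  obtain ⟨C1, hC1, hav⟩ := avs 3 z (by omega)
  obtain ⟨C2, hC2, hsg⟩ := om_sum (b0 * 2) (by linarith)
  refine ⟨C * C1 * C2, K, y0, by positivity, hK1, ?_⟩
  intro α β hb X y Y v u σ hy hzy hyX hσ hv hu hsvu T hT
  exact sumNLc hb hC0 hC1 hb0 hsv hav hsg hy hzy hyX hσ hv hu hsvu T hT

end Pool.Agent.L0h90.TT
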