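import Pool.Agent.L0h5.TT.Stm

/-!
# The count for one outer variable and one tuple of divisors, by forms
-/

set_option autoImplicit false

namespace Pool.Agent.L0h90.TT

open Finset Pool.Agent.W262.RK Pool.Agent.L0h5.TF Pool.Agent.L0h94.FT Pool.Agent.L0h5.TT
open Pool.Agent.W307.RT (S1 S2 Gd fv)

/-! ### The local densities, by forms -/

/-- the indicator of the local conditions -/
noncomputable def phc {k : ℕ} (α β : Fin 3 → ℤ) (g : ℕ) (D : Fin k → ℕ × ℕ) (c : Fin 3)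
    (p r : ℕ) : ℝ :=
  ∏ i, iL (Lce c (sg0 p (Kc α β c * ((g : ℤ) * r)))) (bv p D i) (bs p D i)

lemma phc_nonneg {k : ℕ} (α β : Fin 3 → ℤ) (g : ℕ) (D : Fin k → ℕ × ℕ) (c : Fin 3) (p r : ℕ) :
    0 ≤ phc α β g D c p r :=
  prod_nonneg fun _ _ => iL_nonneg _ _ _

lemma lamc_nonneg (k : ℕ) (c : Fin 3) (v h : Vk k) : 0 ≤ lamc k c v h := by
  unfold lamc
  exact sum_nonneg fun e _ => mul_nonneg (by norm_num) (prod_nonneg fun i _ => iL_nonneg _ _ _)

/-- the average of the local density -/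
lemma phc_avg {k : ℕ} {α β : Fin 3 → ℤ} {z : ℕ} (hb : Bg α β z) {g : ℕ} (D : Fin k → ℕ × ℕ)
    (c : Fin 3) {p : ℕ} (hp : p.Prime) (hz : z < p) (hg : ¬ p ∣ g) :
    (1 / (p : ℝ)) * ∑ r ∈ (range p).filter (fun r => r ≠ 0), phc α β g D c p r ≤
      lamc k c (bv p D) (bs p D) := by
  classical
  have hz8 : 8 ≤ z := by
    have := hb.1
    simpa using this
  have hpi : Prime (p : ℤ) := Nat.prime_iff_prime_int.1 hp
  have hp0 : (0 : ℝ) < p := by exact_mod_cast hp.pos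
  have hK : ¬ (p : ℤ) ∣ Kc α β c * g := by
    intro hd
    have : Fact p.Prime := ⟨hp⟩
    rcases hpi.dvd_or_dvd hd with h4 | h4
    · unfold Kc at h4
      rcases hpi.dvd_or_dvd h4 with h5 | h5
      · split_ifs at h5 with h6
        · exact Pool.Agent.W342.RK2.not_dvd_one h5
        · exact Pool.Agent.W342.RK2.not_dvd_neg_one h5
      · rcases hpi.dvd_or_dvd h5 with h6 | h6
        · exact (hb.2 p hp hz).2 c (cp c) (cp_ne c) h6
        · exact (hb.2 p hp hz).1 c h6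
    · exact hg (Int.natCast_dvd_natCast.1 h4)
  unfold phc lamc
  rw [mul_sum]
  set F : Bool → ℝ := fun e => ∏ i, iL (Lce c e) (bv p D i) (bs p D i) with hF
  have hF0 : ∀ e, 0 ≤ F e := fun e => prod_nonneg fun _ _ => iL_nonneg _ _ _
  have h1 : ∑ r ∈ (range p).filter (fun r => r ≠ 0), F (sg0 p (Kc α β c * ((g : ℤ) * r))) =
      ∑ e : Bool, (((range p).filter (fun r : ℕ => r ≠ 0 ∧ sg0 p (Kc α β c * g * r) = e)).card : ℝ)
        * F e := by
    rw [← sum_fiberwise (s := (range p).filter (fun r => r ≠ 0))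
      (g := fun r : ℕ => sg0 p (Kc α β c * g * r))]
    refine sum_congr rfl fun e _ => ?_
    rw [filter_filter]
    rw [← nsmul_eq_mul, ← sum_const]
    refine sum_congr rfl fun r hr => ?_
    have h2 := (mem_filter.1 hr).2.2
    rw [← mul_assoc, h2]
  rw [← mul_sum]
  show 1 / (p : ℝ) * ∑ r ∈ (range p).filter (fun r => r ≠ 0),
    F (sg0 p (Kc α β c * ((g : ℤ) * r))) ≤ ∑ e : Bool, 1 / 2 * F e
  rw [h1, mul_sum]
  refine sum_le_sum fun e _ => ?_
  have h2 := card_sym hp (by omega) hK e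
  calc 1 / (p : ℝ) * ((((range p).filter (fun r : ℕ => r ≠ 0 ∧
        sg0 p (Kc α β c * g * r) = e)).card : ℝ) * F e)
      ≤ 1 / (p : ℝ) * ((p / 2 : ℝ) * F e) :=
        mul_le_mul_of_nonneg_left (mul_le_mul_of_nonneg_right h2 (hF0 e)) (by positivity)
    _ = 1 / 2 * F e := by field_simp

open Classical in
/-- the classes modulo a prime of `s c` -/
noncomputable def Wc {k : ℕ} (α β : Fin 3 → ℤ) (g t : ℕ) (D : Fin k → ℕ × ℕ) (c : Fin 3)
    (p : ℕ) : Finset ℕ :=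
  (range p).filter (fun x : ℕ => (p : ℤ) ∣ fv α β x t c ∧
    ∀ i, Lce c (sg0 p (Kc α β c * ((g : ℤ) * t))) (bv p D i).1 (bv p D i).2 (bs p D i).1
      (bs p D i).2)

lemma card_Wc {k : ℕ} {α β : Fin 3 → ℤ} {g t p : ℕ} (D : Fin k → ℕ × ℕ) (c : Fin 3)
    (h : IsCoprime (p : ℤ) (α c)) : ((Wc α β g t D c p).card : ℝ) ≤ phc α β g D c p t := by
  classical
  set Q : Prop := ∀ i, Lce c (sg0 p (Kc α β c * ((g : ℤ) * t))) (bv p D i).1
    (bv p D i).2 (bs p D i).1 (bs p D i).2 with hQ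
  have hsub : Wc α β g t D c p ⊆
      if Q then (range p).filter (fun x : ℕ => (p : ℤ) ∣ α c * x + β c * t) else ∅ := by
    intro x hx
    unfold Wc at hx
    rw [mem_filter] at hx
    obtain ⟨h1, h2, h3⟩ := hx
    rw [if_pos h3]
    exact mem_filter.2 ⟨h1, h2⟩
  have h1 : ((Wc α β g t D c p).card : ℝ) ≤ ((if Q then
      (range p).filter (fun x : ℕ => (p : ℤ) ∣ α c * x + β c * t) else ∅ : Finset ℕ).card : ℝ) := by
    exact_mod_cast card_le_card hsub
  refine h1.trans ?_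
  have h2 : phc α β g D c p t = if Q then (1 : ℝ) else 0 := by
    unfold phc iL
    rw [prod_boole]
    simp only [mem_univ, true_implies]
    rfl
  rw [h2]
  split_ifs with h3
  · exact_mod_cast one_root (b := β c * t) h
  · simp

lemma phc_mod {k : ℕ} (α β : Fin 3 → ℤ) (g : ℕ) (D : Fin k → ℕ × ℕ) (c : Fin 3) (p t : ℕ) :
    phc α β g D c p t = phc α β g D c p (t % p) := by
  unfold phc
  have h1 : sg0 p (Kc α β c * ((g : ℤ) * t)) = sg0 p (Kc α β c * ((g : ℤ) * ((t % p : ℕ) : ℤ))) := by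
    unfold sg0
    rw [jacobiSym.mod_left (Kc α β c * ((g : ℤ) * t)),
      jacobiSym.mod_left (Kc α β c * ((g : ℤ) * ((t % p : ℕ) : ℤ)))]
    have h2 : Kc α β c * ((g : ℤ) * t) % p = Kc α β c * ((g : ℤ) * ((t % p : ℕ) : ℤ)) % p := by
      apply Int.ModEq.symm
      rw [Int.modEq_iff_dvd]
      have h3 : Kc α β c * ((g : ℤ) * t) - Kc α β c * ((g : ℤ) * ((t % p : ℕ) : ℤ)) =
          Kc α β c * g * ((t : ℤ) - ((t % p : ℕ) : ℤ)) := by ring
      rw [h3]
      exact (mod_dvd t p).mul_left _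
    rw [h2]
  rw [h1]

/-! ### The small part by forms -/

lemma dvd_tc {α β : Fin 3 → ℤ} {z y g x t p : ℕ} {c : Fin 3} (hp : p.Prime) :
    p ∣ tc α β z y (g, x, t) c ↔ p ∈ PS z y ∧ ¬ p ∣ g ∧ (p : ℤ) ∣ fv α β x t c ∧
      ¬ (p : ℤ) ^ 2 ∣ F3 α β x t := by
  classical
  unfold tc
  rw [prime_dvd_prodS (fun q hq => (mem_PS.1 (mem_filter.1 hq).1).2) hp, mem_filter]

lemma tup_prod {z y : ℕ} {s : Fin 3 → ℕ} (hs : s ∈ Tup (Fin 3) z y) :
    ∏ j, s j ∈ (PP z y).divisors := by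
  rw [mem_Tup'] at hs
  rw [Nat.mem_divisors]
  refine ⟨?_, PP_ne_zero z y⟩
  rw [Fin.prod_univ_three]
  refine Nat.Coprime.mul_dvd_of_dvd_of_dvd ?_ ?_ (hs.1 2)
  · exact Nat.Coprime.mul_left (hs.2 0 2 (by decide)) (hs.2 1 2 (by decide))
  · exact Nat.Coprime.mul_dvd_of_dvd_of_dvd (hs.2 0 1 (by decide)) (hs.1 0) (hs.1 1)

lemma dvd_tp {s : Fin 3 → ℕ} {p : ℕ} (hp : p.Prime) (h : p ∣ ∏ j, s j) : p ∣ s (tp s p) := by
  unfold tp
  split_ifs with h0 h1
  · exact h0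
  · exact h1
  · obtain ⟨j, -, hj⟩ := (hp.prime.dvd_finsetProd_iff _).1 h
    fin_cases j
    · exact absurd hj h0
    · exact absurd hj h1
    · exact hj

end Pool.Agent.L0h90.TT
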