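import Pool.Agent.L0h90.TT.Cnt1

/-!
# The count for one outer variable and one tuple of divisors, by forms, second part
-/

set_option autoImplicit false

namespace Pool.Agent.L0h90.TT

open Finset Pool.Agent.W262.RK Pool.Agent.L0h5.TF Pool.Agent.L0h94.FT Pool.Agent.L0h5.TT
open Pool.Agent.W307.RT (S1 S2 Gd fv)

lemma cntC {k : ℕ} {α β : Fin 3 → ℤ} {z : ℕ} (hb : Bg α β z) {C : ℝ} {K y0 : ℕ} (hC : 0 ≤ C)
    (hsv : SvD z C K y0)
    {X y Y v u g t : ℕ} {σ : Fin 3 → ℕ} (hy : y0 ≤ y) (hzy : z < y) (hyX : y ^ K ≤ X)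
    (hσ : σ ∈ Tup (Fin 3) z y) (hv : v ∈ (PP z y).divisors) (hu : u ∈ (PP y Y).divisors)
    (hsvu : ((∏ j, σ j) * v * u) ^ 8 ≤ X) (hcop : (∏ j, σ j).Coprime v) (hg : g ≠ 0) (ht : t ≠ 0)
    (D : Fin k → ℕ × ℕ) (T : Finset ℕ)
    (hT : ∀ x ∈ T, x ∈ Icc 1 X ∧ x.Coprime t ∧ F3 α β x t ≠ 0 ∧
      tc α β z y (g, x, t) = σ ∧ S2 z y (fR α β (g, x, t)) () = v ∧
      (u : ℤ) ∣ fR α β (g, x, t) () ∧
      ∀ p ∈ (∏ j, σ j).primeFactors, ∀ i, Lw α β g x t p (bv p D i).1 (bv p D i).2 (bs p D i).1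
        (bs p D i).2) :
    (T.card : ℝ) ≤ C * X * ((∏ p ∈ (∏ j, σ j).primeFactors, phc α β g D (tp σ p) p (t % p)) *
        gw 1 3 (∏ j, σ j)) *
      (3 ^ v.primeFactors.card * (gw 1 3 v / v)) * (3 ^ u.primeFactors.card / u) *
      (2 ^ g.primeFactors.card * hf 3 z t) / (Real.log y) ^ 3 := by
  classical
  have hz8 : 8 ≤ z := by
    have := hb.1
    simpa using this
  have hs := tup_prod hσ
  obtain ⟨s, hsd⟩ : ∃ s : ℕ, s = ∏ j, σ j := ⟨_, rfl⟩
  rw [← hsd] at hs hsvu hcop hT ⊢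
  have hs0 : s ≠ 0 := dv_ne_zero hs
  have hv0 : v ≠ 0 := dv_ne_zero hv
  have hu0 : u ≠ 0 := dv_ne_zero hu
  have hsz : ∀ p ∈ s.primeFactors, (z < p ∧ p ≤ y) ∧ p.Prime := fun p hp =>
    ⟨dv_prime hs (Nat.prime_of_mem_primeFactors hp) (Nat.dvd_of_mem_primeFactors hp),
      Nat.prime_of_mem_primeFactors hp⟩
  have hvz : ∀ p ∈ v.primeFactors, (z < p ∧ p ≤ y) ∧ p.Prime := fun p hp =>
    ⟨dv_prime hv (Nat.prime_of_mem_primeFactors hp) (Nat.dvd_of_mem_primeFactors hp),
      Nat.prime_of_mem_primeFactors hp⟩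
  have huz : ∀ p ∈ u.primeFactors, (y < p ∧ p ≤ Y) ∧ p.Prime := fun p hp =>
    ⟨dv_prime hu (Nat.prime_of_mem_primeFactors hp) (Nat.dvd_of_mem_primeFactors hp),
      Nat.prime_of_mem_primeFactors hp⟩
  have dsv : Disjoint s.primeFactors v.primeFactors := hcop.disjoint_primeFactors
  have dsvu : Disjoint (s.primeFactors ∪ v.primeFactors) u.primeFactors := by
    rw [disjoint_left]
    intro p hp hp'
    have h1 := (huz p hp').1.1
    rcases mem_union.1 hp with h2 | h2
    · have := (hsz p h2).1.2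
      omega
    · have := (hvz p h2).1.2
      omega
  set S := (s.primeFactors ∪ v.primeFactors) ∪ u.primeFactors with hS
  have hSp : ∀ p ∈ S, p.Prime := by
    intro p hp
    rcases mem_union.1 hp with h1 | h1
    · rcases mem_union.1 h1 with h2 | h2
      · exact (hsz p h2).2
      · exact (hvz p h2).2
    · exact (huz p h1).2
  have hSz : ∀ p ∈ S, z < p := by
    intro p hp
    rcases mem_union.1 hp with h1 | h1
    · rcases mem_union.1 h1 with h2 | h2
      · exact (hsz p h2).1.1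
      · exact (hvz p h2).1.1
    · have := (huz p h1).1.1
      omega
  set e : ℕ → ℕ := fun p => if p ∈ v.primeFactors then 2 else 1 with he
  set W : ℕ → Finset ℕ := fun p => if p ∈ s.primeFactors then Wc α β g t D (tp σ p) p
    else Wu α β t (p ^ e p) with hW
  have es : ∀ p ∈ s.primeFactors, p ∉ u.primeFactors ∧ p ∉ v.primeFactors := fun p hp =>
    ⟨fun h => (disjoint_left.1 dsvu (mem_union_left _ hp)) h,
      fun h => (disjoint_left.1 dsv hp) h⟩
  have ev : ∀ p ∈ v.primeFactors, p ∉ u.primeFactors ∧ p ∉ s.primeFactors := fun p hp =>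
    ⟨fun h => (disjoint_left.1 dsvu (mem_union_right _ hp)) h,
      fun h => (disjoint_left.1 dsv h) hp⟩
  have eu : ∀ p ∈ u.primeFactors, p ∉ s.primeFactors ∧ p ∉ v.primeFactors := fun p hp =>
    ⟨fun h => (es p h).1 hp, fun h => (ev p h).1 hp⟩
  have splitN : ∀ F : ℕ → ℕ, ∏ p ∈ S, F p =
      (∏ p ∈ s.primeFactors, F p) * (∏ p ∈ v.primeFactors, F p) * ∏ p ∈ u.primeFactors, F p := by
    intro F
    rw [hS, prod_union dsvu, prod_union dsv]
  have splitR : ∀ F : ℕ → ℝ, ∏ p ∈ S, F p =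
      (∏ p ∈ s.primeFactors, F p) * (∏ p ∈ v.primeFactors, F p) * ∏ p ∈ u.primeFactors, F p := by
    intro F
    rw [hS, prod_union dsvu, prod_union dsv]
  have prs : ∏ p ∈ s.primeFactors, p = s := Nat.prod_primeFactors_of_squarefree (dv_squarefree hs)
  have prv : ∏ p ∈ v.primeFactors, p = v := Nat.prod_primeFactors_of_squarefree (dv_squarefree hv)
  have pru : ∏ p ∈ u.primeFactors, p = u := Nat.prod_primeFactors_of_squarefree (dv_squarefree hu)
  have hq : ∏ p ∈ S, p ^ e p = s * v ^ 2 * u := by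
    rw [splitN]
    congr 1
    · congr 1
      · conv_rhs => rw [← prs]
        refine prod_congr rfl fun p hp => ?_
        rw [he]
        simp only [(es p hp).2, if_false, pow_one]
      · conv_rhs => rw [← prv, ← prod_pow]
        refine prod_congr rfl fun p hp => ?_
        rw [he]
        simp only [hp, if_true]
    · conv_rhs => rw [← pru]
      refine prod_congr rfl fun p hp => ?_
      rw [he]
      simp only [(eu p hp).2, if_false, pow_one]
  have hqX : (s * v ^ 2 * u) ^ 4 ≤ X := by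
    refine le_trans ?_ hsvu
    have h1 : (s * v ^ 2 * u) ≤ (s * v * u) ^ 2 := by
      have h2 : u ≤ u ^ 2 := Nat.le_self_pow two_ne_zero u
      have h3 : s ≤ s ^ 2 := Nat.le_self_pow two_ne_zero s
      calc s * v ^ 2 * u ≤ s ^ 2 * v ^ 2 * u ^ 2 :=
            Nat.mul_le_mul (Nat.mul_le_mul_right _ h3) h2
        _ = _ := by ring
    calc (s * v ^ 2 * u) ^ 4 ≤ ((s * v * u) ^ 2) ^ 4 := Nat.pow_le_pow_left h1 4
      _ = _ := by rw [← pow_mul]
  set q := s * v ^ 2 * u with hqdef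
  have hq0 : q ≠ 0 := mul_ne_zero (mul_ne_zero hs0 (pow_ne_zero 2 hv0)) hu0
  set M := q * t * g with hM
  have hM0 : M ≠ 0 := mul_ne_zero (mul_ne_zero hq0 ht) hg
  -- the fibres
  set B : ℝ := C * (X / (q : ℝ)) * (∏ p ∈ M.primeFactors.filter (fun p => p ∈ PS z y),
        (p : ℝ) / ((p : ℝ) - 3)) / (Real.log y) ^ 3 with hB
  have hprod0 : 0 ≤ ∏ p ∈ M.primeFactors.filter (fun p => p ∈ PS z y),
        (p : ℝ) / ((p : ℝ) - 3) := prod_nonneg fun p hp =>
    zero_le_one.trans (one_le_fac hz8 (mem_PS.1 (mem_filter.1 hp).2).1.1)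
  have hlog : 0 ≤ (Real.log y) ^ 3 := pow_nonneg (Real.log_natCast_nonneg y) _
  have hB0 : 0 ≤ B := by
    rw [hB]
    exact div_nonneg (mul_nonneg (mul_nonneg hC (by positivity)) hprod0) hlog
  have hfib : ∀ r, ((T.filter (fun x => x % (∏ p ∈ S, p ^ e p) = r)).card : ℝ) ≤ B := by
    intro r
    rw [hq]
    have h1 := hsv X y hy hzy hyX α (fun j => β j * t) q M r (Nat.pos_of_ne_zero hq0)
      ((Dvd.intro _ rfl : q ∣ q * t).trans (Dvd.intro _ rfl)) hM0 hqX (by
        intro p hp hpM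
        have hpp := (mem_PS.1 hp).2
        have hzp := (mem_PS.1 hp).1.1
        refine ⟨(hb.2 p hpp hzp).1, fun j l hjl hd => ?_⟩
        have h2 : Res α (fun j => β j * t) j l = Res α β j l * t := by
          unfold Res; ring
        rw [h2] at hd
        rcases (Nat.prime_iff_prime_int.1 hpp).dvd_or_dvd hd with h3 | h3
        · exact (hb.2 p hpp hzp).2 j l hjl h3
        · apply hpM
          exact ((Int.natCast_dvd_natCast.1 h3).trans (Dvd.intro_left q rfl)).trans
            (Dvd.intro _ rfl))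
    refine le_trans ?_ (h1.trans (le_of_eq ?_))
    · have h2 : T.filter (fun x => x % q = r) ⊆ (Icc 1 X).filter (fun x : ℕ => x ≡ r [MOD q] ∧
          ∀ p ∈ PS z y, ¬ p ∣ M → ∀ j, ¬ (p : ℤ) ∣ ff α (fun j => β j * t) x j) := by
        intro x hx
        rw [mem_filter] at hx
        obtain ⟨h3, h4, h5, h6, h7, h8, h9⟩ := hT x hx.1
        rw [mem_filter]
        refine ⟨h3, ?_, fun p hp hpM j hj => ?_⟩
        · show x % q = r % q
          rw [← hx.2, Nat.mod_mod]
        · have hpp := (mem_PS.1 hp).2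
          have h10 : (p : ℤ) ∣ F3 α β x t := (dvd_F3 hpp).2 ⟨j, by
            have e1 : fv α β x t j = ff α (fun j => β j * t) x j := by
              unfold fv ff; ring
            rw [e1]
            exact hj⟩
          have hpg : ¬ p ∣ g := fun h => hpM (h.trans (Dvd.intro_left _ rfl))
          have hpq : ¬ p ∣ q := fun h => hpM ((h.trans (Dvd.intro _ rfl)).trans (Dvd.intro _ rfl))
          by_cases h11 : (p : ℤ) ^ 2 ∣ F3 α β x t
          · have h12 := (dvd_S2R (g := g) hpp h5).2 ⟨hp, hpg, h11⟩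
            rw [h7] at h12
            exact hpq ((h12.trans (Dvd.intro_left s (by ring : s * v = s * v))).trans
              (Dvd.intro (v * u) (by rw [hqdef]; ring)))
          · obtain ⟨c, hc⟩ := (dvd_F3 hpp).1 h10
            have h12 := (dvd_tc (α := α) (β := β) (z := z) (y := y) (g := g) (x := x) (t := t)
              (c := c) hpp).2 ⟨hp, hpg, hc, h11⟩
            rw [h6] at h12
            have h13 : p ∣ s := by
              rw [hsd]
              exact h12.trans (dvd_prod_of_mem σ (mem_univ c))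
            exact hpq (h13.trans (Dvd.intro (v ^ 2 * u) (by rw [hqdef]; ring)))
      exact_mod_cast card_le_card h2
    · rw [hB]
      norm_num
  have hmain := crt2 S hSp e W T (fun x hx p hp => by
    obtain ⟨h3, h4, h5, h6, h7, h8, h9⟩ := hT x hx
    have hpp := hSp p hp
    have hzp := hSz p hp
    rcases mem_union.1 hp with hp1 | hp1
    · rcases mem_union.1 hp1 with hp2 | hp2
      · -- `p ∣ s`
        have h10 : p ∣ tc α β z y (g, x, t) (tp σ p) := by
          rw [h6]
          apply dvd_tp hpp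
          rw [← hsd]
          exact Nat.dvd_of_mem_primeFactors hp2
        obtain ⟨-, h11, hc, -⟩ := (dvd_tc hpp).1 h10
        rw [hW, he]
        simp only [hp2, (es p hp2).2, if_true, if_false, pow_one]
        unfold Wc
        rw [mem_filter, mem_range]
        exact ⟨Nat.mod_lt _ hpp.pos, (fv_mod (dvd_refl p)).1 hc, fun i => h9 p hp2 i (tp σ p) hc⟩
      · -- `p ∣ v`
        have h10 : p ∣ S2 z y (fR α β (g, x, t)) () := by
          rw [h7]
          exact Nat.dvd_of_mem_primeFactors hp2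
        obtain ⟨-, h11, h12⟩ := (dvd_S2R hpp h5).1 h10
        obtain ⟨c, hc⟩ := (dvd_F3 hpp).1 ((dvd_pow_self (p : ℤ) two_ne_zero).trans h12)
        have h13 := (sq_dvd_F3 hb hpp hzp h4 hc).1 h12
        rw [hW, he]
        simp only [(ev p hp2).2, hp2, if_true, if_false]
        unfold Wu
        rw [mem_filter, mem_range]
        refine ⟨Nat.mod_lt _ (pow_pos hpp.pos 2), c, (fv_mod (dvd_refl (p ^ 2))).1 ?_⟩
        rw [Nat.cast_pow]
        exact h13
    · -- `p ∣ u`
      have h10 : (p : ℤ) ∣ fR α β (g, x, t) () :=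
        (Int.natCast_dvd_natCast.2 (Nat.dvd_of_mem_primeFactors hp1)).trans h8
      obtain ⟨h12, h11⟩ := (dvd_fR1 hpp h5).1 h10
      obtain ⟨c, hc⟩ := (dvd_F3 hpp).1 h12
      rw [hW, he]
      simp only [(eu p hp1).1, (eu p hp1).2, if_false, pow_one]
      unfold Wu
      rw [mem_filter, mem_range]
      exact ⟨Nat.mod_lt _ hpp.pos, c, (fv_mod (dvd_refl p)).1 hc⟩) hB0 hfib
  have hcopα : ∀ p ∈ S, ∀ c, IsCoprime (p : ℤ) (α c) := fun p hp c =>
    (Prime.coprime_iff_not_dvd (Nat.prime_iff_prime_int.1 (hSp p hp))).2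
      ((hb.2 p (hSp p hp) (hSz p hp)).1 c)
  have hWs : ∀ p ∈ s.primeFactors, ((W p).card : ℝ) ≤ phc α β g D (tp σ p) p (t % p) := by
    intro p hp
    rw [hW]
    simp only [hp, if_true]
    rw [← phc_mod]
    exact card_Wc D (tp σ p) (hcopα p (mem_union_left _ (mem_union_left _ hp)) (tp σ p))
  have hWv : ∀ p ∈ v.primeFactors, ((W p).card : ℝ) ≤ 3 := by
    intro p hp
    rw [hW, he]
    simp only [(ev p hp).2, hp, if_true, if_false]
    have := card_Wu (β := β) (t := t) (n := p ^ 2) (fun c => by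
      rw [Nat.cast_pow]
      exact (hcopα p (mem_union_left _ (mem_union_right _ hp)) c).pow_left)
    exact_mod_cast this
  have hWu : ∀ p ∈ u.primeFactors, ((W p).card : ℝ) ≤ 3 := by
    intro p hp
    rw [hW, he]
    simp only [(eu p hp).1, (eu p hp).2, if_false, pow_one]
    have := card_Wu (β := β) (t := t) (n := p) (hcopα p (mem_union_right _ hp))
    exact_mod_cast this
  have hphi0 : 0 ≤ ∏ p ∈ s.primeFactors, phc α β g D (tp σ p) p (t % p) :=
    prod_nonneg fun p _ => phc_nonneg _ _ _ _ _ _ _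
  have hWprod : (∏ p ∈ S, ((W p).card : ℝ)) ≤
      (∏ p ∈ s.primeFactors, phc α β g D (tp σ p) p (t % p)) *
        (3 : ℝ) ^ v.primeFactors.card * (3 : ℝ) ^ u.primeFactors.card := by
    rw [splitR, ← prod_const, ← prod_const]
    exact mul_le_mul (mul_le_mul
      (prod_le_prod (fun _ _ => Nat.cast_nonneg _) hWs)
      (prod_le_prod (fun _ _ => Nat.cast_nonneg _) hWv)
      (prod_nonneg fun _ _ => Nat.cast_nonneg _) hphi0)
      (prod_le_prod (fun _ _ => Nat.cast_nonneg _) hWu)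
      (prod_nonneg fun _ _ => Nat.cast_nonneg _)
      (mul_nonneg hphi0 (prod_nonneg fun _ _ => by norm_num))
  have hfac := fac_le hz8 hs hv hu hg ht
  rw [← hqdef, ← hM] at hfac
  have hB1 : B ≤ C * (X / (q : ℝ)) * ((s * gw 1 3 s) * (v * gw 1 3 v) *
      (2 ^ g.primeFactors.card * hf 3 z t)) / (Real.log y) ^ 3 := by
    rw [hB]
    exact div_le_div_of_nonneg_right (mul_le_mul_of_nonneg_left hfac
      (mul_nonneg hC (by positivity))) hlog
  have hWn : 0 ≤ (∏ p ∈ s.primeFactors, phc α β g D (tp σ p) p (t % p)) *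
        (3 : ℝ) ^ v.primeFactors.card * (3 : ℝ) ^ u.primeFactors.card := by positivity
  refine hmain.trans ((mul_le_mul hWprod hB1 hB0 hWn).trans (le_of_eq ?_))
  have hs' : (s : ℝ) ≠ 0 := by exact_mod_cast hs0
  have hv' : (v : ℝ) ≠ 0 := by exact_mod_cast hv0
  have hu' : (u : ℝ) ≠ 0 := by exact_mod_cast hu0
  rw [hqdef]
  push_cast
  generalize ∏ p ∈ s.primeFactors, phc α β g D (tp σ p) p (t % p) = Pi0
  generalize gw 1 3 s = gs
  generalize gw 1 3 v = gv
  generalize hf 3 z t = h3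
  generalize (3 : ℝ) ^ v.primeFactors.card = cv
  generalize (3 : ℝ) ^ u.primeFactors.card = cu
  generalize (2 : ℝ) ^ g.primeFactors.card = cg
  generalize (Real.log y) ^ 3 = L
  have e1 : (s : ℝ) * v / ((s : ℝ) * (v : ℝ) ^ 2 * u) = 1 / (v * u) := by
    field_simp
  calc Pi0 * cv * cu * (C * (X / ((s : ℝ) * (v : ℝ) ^ 2 * u)) *
        (s * gs * (v * gv) * (cg * h3)) / L) =
      C * X * (Pi0 * gs) * (cv * gv) * cu * ((s : ℝ) * v / ((s : ℝ) * (v : ℝ) ^ 2 * u)) *
        (cg * h3) / L := by ring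
    _ = _ := by
      rw [e1]
      ring

end Pool.Agent.L0h90.TT
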